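import Mathlib

/-!
Piecewise linear functions.
-/

namespace Pool.Agent.Helper32.Kak

open Finset MeasureTheory

/-- The clamp function. -/
noncomputable def cl (z : ℝ) : ℝ := max 0 (min 1 z)

theorem cl_continuous : Continuous cl := by
  unfold cl
  fun_prop

theorem cl_mono : Monotone cl := by
  intro a b h
  exact max_le_max le_rfl (min_le_min le_rfl h)

theorem cl_of_le {z : ℝ} (h : z ≤ 0) : cl z = 0 := by
  rw [cl, max_eq_left]
  exact (min_le_right _ _).trans h

theorem cl_of_ge {z : ℝ} (h : 1 ≤ z) : cl z = 1 := by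
  rw [cl, min_eq_left h]
  norm_num

theorem cl_of_mem {z : ℝ} (h0 : 0 ≤ z) (h1 : z ≤ 1) : cl z = z := by
  rw [cl, min_eq_right h1, max_eq_right h0]

/-- The piecewise linear function with the values `a k` at `k = 0, ..., K`, constant outside. -/
noncomputable def pl (a : ℕ → ℝ) (K : ℕ) (y : ℝ) : ℝ :=
  a 0 + ∑ k ∈ range K, (a (k + 1) - a k) * cl (y - k)

theorem pl_continuous (a : ℕ → ℝ) (K : ℕ) : Continuous (pl a K) := by
  unfold pl
  have := cl_continuous
  fun_prop

theorem pl_antitone (a : ℕ → ℝ) (K : ℕ) (h : ∀ k < K, a (k + 1) ≤ a k) : Antitone (pl a K) := by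
  intro x y hxy
  unfold pl
  have : ∑ k ∈ range K, (a (k + 1) - a k) * cl (y - k) ≤
      ∑ k ∈ range K, (a (k + 1) - a k) * cl (x - k) := by
    apply Finset.sum_le_sum
    intro k hk
    apply mul_le_mul_of_nonpos_left
    · apply cl_mono; linarith
    · have := h k (Finset.mem_range.mp hk)
      linarith
  linarith

theorem pl_cell (a : ℕ → ℝ) {K k : ℕ} (hk : k < K) {y : ℝ} (h1 : (k : ℝ) ≤ y) (h2 : y ≤ k + 1) :
    pl a K y = a k + (a (k + 1) - a k) * (y - k) := by
  unfold pl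
  rw [Finset.range_eq_Ico, ← Finset.sum_Ico_consecutive _ (Nat.zero_le k) hk.le,
    ← Finset.sum_Ico_consecutive _ (Nat.le_succ k) hk]
  have e1 : ∑ i ∈ Ico 0 k, (a (i + 1) - a i) * cl (y - i) = a k - a 0 := by
    rw [← Finset.range_eq_Ico, ← Finset.sum_range_sub]
    apply Finset.sum_congr rfl
    intro i hi
    have hi' : i + 1 ≤ k := Finset.mem_range.mp hi
    have : (i : ℝ) + 1 ≤ k := by exact_mod_cast hi'
    rw [cl_of_ge (by linarith), mul_one]
  have e2 : ∑ i ∈ Ico k k.succ, (a (i + 1) - a i) * cl (y - i) = (a (k + 1) - a k) * (y - k) := by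
    rw [Nat.succ_eq_add_one, Nat.Ico_succ_singleton, Finset.sum_singleton,
      cl_of_mem (by linarith) (by linarith)]
  have e3 : ∑ i ∈ Ico k.succ K, (a (i + 1) - a i) * cl (y - i) = 0 := by
    apply Finset.sum_eq_zero
    intro i hi
    have hi' : k + 1 ≤ i := (Finset.mem_Ico.mp hi).1
    have : (k : ℝ) + 1 ≤ i := by exact_mod_cast hi'
    rw [cl_of_le (by linarith), mul_zero]
  rw [e1, e2, e3]
  ring

theorem pl_of_nonpos (a : ℕ → ℝ) (K : ℕ) {y : ℝ} (h : y ≤ 0) : pl a K y = a 0 := by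
  unfold pl
  rw [Finset.sum_eq_zero, add_zero]
  intro k _
  have : (0 : ℝ) ≤ k := by positivity
  rw [cl_of_le (by linarith), mul_zero]

theorem pl_of_ge (a : ℕ → ℝ) (K : ℕ) {y : ℝ} (h : (K : ℝ) ≤ y) : pl a K y = a K := by
  unfold pl
  have : ∑ k ∈ range K, (a (k + 1) - a k) * cl (y - k) = a K - a 0 := by
    rw [← Finset.sum_range_sub]
    apply Finset.sum_congr rfl
    intro i hi
    have hi' : i + 1 ≤ K := Finset.mem_range.mp hi
    have : (i : ℝ) + 1 ≤ K := by exact_mod_cast hi'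
    rw [cl_of_ge (by linarith), mul_one]
  rw [this]
  ring

theorem exists_cell {K : ℕ} (hK : 0 < K) {y : ℝ} (h0 : 0 ≤ y) (h1 : y ≤ K) :
    ∃ k < K, (k : ℝ) ≤ y ∧ y ≤ k + 1 := by
  by_cases h : y < K
  · refine ⟨⌊y⌋₊, ?_, Nat.floor_le h0, (Nat.lt_floor_add_one y).le⟩
    exact (Nat.floor_lt h0).mpr h
  · have : y = K := le_antisymm h1 (not_lt.mp h)
    have hK1 : ((K - 1 : ℕ) : ℝ) = K - 1 := by
      rw [Nat.cast_sub (by omega)]; simp
    refine ⟨K - 1, by omega, ?_, ?_⟩
    · rw [hK1, this]; linarith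
    · rw [hK1, this]; linarith

theorem pl_integral (a : ℕ → ℝ) (K : ℕ) :
    ∫ y in (0 : ℝ)..K, pl a K y = ∑ k ∈ range K, (a k + a (k + 1)) / 2 := by
  have h1 := intervalIntegral.sum_integral_adjacent_intervals (f := pl a K) (μ := volume)
    (a := fun k : ℕ => (k : ℝ)) (n := K)
    (fun k _ => (pl_continuous a K).intervalIntegrable _ _)
  simp only [Nat.cast_zero] at h1
  rw [← h1]
  apply Finset.sum_congr rfl
  intro k hk
  have hk' := Finset.mem_range.mp hk
  have h2 : ∫ x in (k : ℝ)..((k + 1 : ℕ) : ℝ), pl a K x =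
      ∫ x in (k : ℝ)..((k + 1 : ℕ) : ℝ), (a k + (a (k + 1) - a k) * (x - k)) := by
    apply intervalIntegral.integral_congr
    intro x hx
    rw [Set.uIcc_of_le (by push_cast; linarith)] at hx
    have hx2 := hx.2
    push_cast at hx2
    exact pl_cell a hk' hx.1 hx2
  rw [h2]
  have h3 : ∀ x ∈ Set.uIcc (k : ℝ) ((k + 1 : ℕ) : ℝ),
      HasDerivAt (fun x : ℝ => a k * x + (a (k + 1) - a k) * ((x - k) ^ 2 / 2))
        (a k + (a (k + 1) - a k) * (x - k)) x := by
    intro x _
    have e1 : HasDerivAt (fun x : ℝ => a k * x) (a k) x := by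
      simpa using (hasDerivAt_id x).const_mul (a k)
    have e2 : HasDerivAt (fun x : ℝ => (x - k) ^ 2 / 2) (x - k) x := by
      have := (((hasDerivAt_id x).sub_const (k : ℝ)).pow 2).div_const 2
      convert! this using 1
      simp
    exact e1.add (e2.const_mul _)
  rw [intervalIntegral.integral_eq_sub_of_hasDerivAt h3
    (Continuous.intervalIntegrable (by fun_prop) _ _)]
  push_cast
  ring

end Pool.Agent.Helper32.Kak
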