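import Mathlib
import Pool.Agent.Helper32.Kak.PL

/-!
The certificate: the arm profile and the needle path.
-/

namespace Pool.Agent.Helper32.Kak

open Finset MeasureTheory

/-- The half-widths of the arms (scaled). -/
def vL : List ℕ := [77094, 75318, 73542, 71814, 70086, 68406, 66726, 65094, 63462, 61878, 60294,
  58758, 57222, 55734, 54246, 52806, 51366, 49974, 48600, 47221, 45838, 44454, 43110, 41814, 40518,
  39270, 38022, 36822, 35622, 34430, 33318, 32214, 31110, 30006, 28902, 27798, 26694, 25590, 24534,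
  23526, 22526, 21566, 20615, 19703, 18804, 17940, 17094, 16278, 15510, 14790, 14118, 13494, 12870,
  12246, 11622, 10998, 10374, 9750, 9126, 8502, 7974, 7446, 6918, 6390, 5902, 5382, 5046, 4710,
  4366, 4021, 3672, 3318, 2934, 2502, 2022, 1590, 1302, 1062, 870, 678, 534, 438, 438, 390, 294,
  198, 54, 12, 12]

/-- The distances of the needle from the centre (scaled). -/
def mL : List ℕ := [0, 5046, 9942, 14646, 19302, 23862, 28374, 32838, 37122, 41238, 45222, 49115,
  52854, 56460, 59814, 63030, 66198, 69318, 72372, 75335, 78206, 80982, 83670, 86266, 88574, 90822,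
  92934, 94950, 96870, 98694, 100326, 101862, 103302, 104646, 105894, 107046, 108102, 109062,
  109926, 110677, 111302, 111789, 112154, 112398, 112541]

/-- The values of the profile. -/
def vn (j : ℕ) : ℕ := vL.getD j 0

/-- The values of the path. -/
def mn (k : ℕ) : ℕ := mL.getD k 0

theorem certA : ∀ j < 89, ∀ k < 45, mn k ≤ vn j + 48 * k * (18 + j) := by decide +kernel

theorem certB : ∀ k < 45, 48 * k * (106 - k) + 12 ≤ vn (88 - k) + mn k := by decide +kernel

theorem certD : ∀ k < 45, 48 * (88 - k) * (18 + k) + 12 ≤ vn k + mn k := by decide +kernel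

theorem certV : ∀ j < 88, vn (j + 1) ≤ vn j := by decide +kernel

theorem certM : ∀ k < 45, mn k ≤ 112541 := by decide +kernel

theorem certSum : ∑ j ∈ range 88, (vn j + vn (j + 1)) = 4506162 := by decide +kernel

/-- The profile as a real function of the index variable. -/
noncomputable def vf : ℝ → ℝ := pl (fun j => (vn j : ℝ)) 88

/-- The path as a real function of the index variable. -/
noncomputable def mf : ℝ → ℝ := pl (fun j => (mn j : ℝ)) 44

theorem vf_antitone : Antitone vf := by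
  apply pl_antitone
  intro k hk
  exact_mod_cast certV k hk

theorem vf_nonneg (y : ℝ) : 0 ≤ vf y := by
  rcases le_total y 88 with h | h
  · have h1 := vf_antitone h
    have h2 : vf 88 = vn 88 := pl_of_ge _ _ (by norm_num)
    rw [h2] at h1
    exact le_trans (by positivity) h1
  · have h2 : vf y = vn 88 := pl_of_ge _ _ (by exact_mod_cast h)
    rw [h2]
    positivity

/-- Condition (A). -/
theorem condA {y z : ℝ} (hy0 : 0 ≤ y) (hy1 : y ≤ 88) (hz0 : 0 ≤ z) (hz1 : z ≤ 44) :
    mf z ≤ vf y + 48 * z * (18 + y) := by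
  obtain ⟨j, hj, hj1, hj2⟩ := exists_cell (K := 88) (by norm_num) hy0 (by exact_mod_cast hy1)
  obtain ⟨k, hk, hk1, hk2⟩ := exists_cell (K := 44) (by norm_num) hz0 (by exact_mod_cast hz1)
  have e1 : mf z = mn k + ((mn (k + 1) : ℝ) - mn k) * (z - k) := pl_cell _ hk hk1 hk2
  have e2 : vf y = vn j + ((vn (j + 1) : ℝ) - vn j) * (y - j) := pl_cell _ hj hj1 hj2
  rw [e1, e2]
  have a00 : (mn k : ℝ) ≤ vn j + 48 * k * (18 + j) := by
    exact_mod_cast certA j (by omega) k (by omega)
  have a10 : (mn k : ℝ) ≤ vn (j + 1) + 48 * k * (18 + (j + 1)) := by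
    exact_mod_cast certA (j + 1) (by omega) k (by omega)
  have a01 : (mn (k + 1) : ℝ) ≤ vn j + 48 * (k + 1) * (18 + j) := by
    exact_mod_cast certA j (by omega) (k + 1) (by omega)
  have a11 : (mn (k + 1) : ℝ) ≤ vn (j + 1) + 48 * (k + 1) * (18 + (j + 1)) := by
    exact_mod_cast certA (j + 1) (by omega) (k + 1) (by omega)
  obtain ⟨a, ha⟩ : ∃ a : ℝ, a = y - j := ⟨_, rfl⟩
  obtain ⟨b, hb⟩ : ∃ b : ℝ, b = z - k := ⟨_, rfl⟩
  have hy : y = j + a := by rw [ha]; ring
  have hz : z = k + b := by rw [hb]; ring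
  rw [hy, hz]
  rw [hy] at hj1 hj2
  rw [hz] at hk1 hk2
  have ha0 : 0 ≤ a := by linarith
  have ha1 : 0 ≤ 1 - a := by linarith
  have hb0 : 0 ≤ b := by linarith
  have hb1 : 0 ≤ 1 - b := by linarith
  have p00 := mul_le_mul_of_nonneg_left a00 (mul_nonneg ha1 hb1)
  have p10 := mul_le_mul_of_nonneg_left a10 (mul_nonneg ha0 hb1)
  have p01 := mul_le_mul_of_nonneg_left a01 (mul_nonneg ha1 hb0)
  have p11 := mul_le_mul_of_nonneg_left a11 (mul_nonneg ha0 hb0)
  have key : (1 - a) * (1 - b) * (mn k : ℝ) + a * (1 - b) * mn k + (1 - a) * b * mn (k + 1) +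
      a * b * mn (k + 1) ≤ (1 - a) * (1 - b) * (vn j + 48 * k * (18 + j)) +
      a * (1 - b) * (vn (j + 1) + 48 * k * (18 + (j + 1))) +
      (1 - a) * b * (vn j + 48 * (k + 1) * (18 + j)) +
      a * b * (vn (j + 1) + 48 * (k + 1) * (18 + (j + 1))) := by linarith
  have l1 : (1 - a) * (1 - b) * (mn k : ℝ) + a * (1 - b) * mn k + (1 - a) * b * mn (k + 1) +
      a * b * mn (k + 1) = mn k + ((mn (k + 1) : ℝ) - mn k) * (k + b - k) := by ring
  have l2 : (1 - a) * (1 - b) * ((vn j : ℝ) + 48 * k * (18 + j)) +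
      a * (1 - b) * (vn (j + 1) + 48 * k * (18 + (j + 1))) +
      (1 - a) * b * (vn j + 48 * (k + 1) * (18 + j)) +
      a * b * (vn (j + 1) + 48 * (k + 1) * (18 + (j + 1))) =
      vn j + ((vn (j + 1) : ℝ) - vn j) * (j + a - j) + 48 * (k + b) * (18 + (j + a)) := by ring
  rw [l1, l2] at key
  exact key

/-- Condition (B). -/
theorem condB {z : ℝ} (hz0 : 0 ≤ z) (hz1 : z ≤ 44) :
    48 * z * (106 - z) ≤ vf (88 - z) + mf z := by
  obtain ⟨k, hk, hk1, hk2⟩ := exists_cell (K := 44) (by norm_num) hz0 (by exact_mod_cast hz1)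
  have e1 : mf z = mn k + ((mn (k + 1) : ℝ) - mn k) * (z - k) := pl_cell _ hk hk1 hk2
  have hkc : ((87 - k : ℕ) : ℝ) = 87 - k := by rw [Nat.cast_sub (by omega)]; norm_num
  have e2 : vf (88 - z) = vn (87 - k) + ((vn (88 - k) : ℝ) - vn (87 - k)) * (88 - z - (87 - k)) := by
    have := pl_cell (fun j => (vn j : ℝ)) (K := 88) (k := 87 - k) (by omega) (y := 88 - z)
      (by rw [hkc]; linarith) (by rw [hkc]; linarith)
    rw [hkc] at this
    have h88 : 87 - k + 1 = 88 - k := by omega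
    rw [h88] at this
    exact this
  rw [e1, e2]
  have b0 : 48 * (k : ℝ) * (106 - k) + 12 ≤ vn (88 - k) + mn k := by
    have := certB k (by omega)
    have h106 : ((106 - k : ℕ) : ℝ) = 106 - k := by rw [Nat.cast_sub (by omega)]; norm_num
    rw [← h106]
    exact_mod_cast this
  have b1 : 48 * ((k : ℝ) + 1) * (105 - k) + 12 ≤ vn (87 - k) + mn (k + 1) := by
    have := certB (k + 1) (by omega)
    have h105 : ((106 - (k + 1) : ℕ) : ℝ) = 105 - k := by
      rw [Nat.cast_sub (by omega)]; push_cast; ring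
    have h87 : 88 - (k + 1) = 87 - k := by omega
    rw [h87] at this
    rw [← h105]
    exact_mod_cast this
  obtain ⟨b, hb⟩ : ∃ b : ℝ, b = z - k := ⟨_, rfl⟩
  have hz : z = k + b := by rw [hb]; ring
  rw [hz] at hk1 hk2 ⊢
  have hb0 : 0 ≤ b := by linarith
  have hb1 : 0 ≤ 1 - b := by linarith
  have p0 := mul_le_mul_of_nonneg_left b0 hb1
  have p1 := mul_le_mul_of_nonneg_left b1 hb0
  nlinarith [mul_nonneg hb0 hb1, sq_nonneg (b - 1 / 2)]

/-- Condition (D). -/
theorem condD {z : ℝ} (hz0 : 0 ≤ z) (hz1 : z ≤ 44) :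
    48 * (88 - z) * (18 + z) ≤ vf z + mf z := by
  obtain ⟨k, hk, hk1, hk2⟩ := exists_cell (K := 44) (by norm_num) hz0 (by exact_mod_cast hz1)
  have e1 : mf z = mn k + ((mn (k + 1) : ℝ) - mn k) * (z - k) := pl_cell _ hk hk1 hk2
  have e2 : vf z = vn k + ((vn (k + 1) : ℝ) - vn k) * (z - k) :=
    pl_cell _ (by omega) hk1 hk2
  rw [e1, e2]
  have b0 : 48 * (88 - (k : ℝ)) * (18 + k) + 12 ≤ vn k + mn k := by
    have := certD k (by omega)
    have h88 : ((88 - k : ℕ) : ℝ) = 88 - k := by rw [Nat.cast_sub (by omega)]; norm_num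
    rw [← h88]
    exact_mod_cast this
  have b1 : 48 * (87 - (k : ℝ)) * (19 + k) + 12 ≤ vn (k + 1) + mn (k + 1) := by
    have := certD (k + 1) (by omega)
    have h87 : ((88 - (k + 1) : ℕ) : ℝ) = 87 - k := by
      rw [Nat.cast_sub (by omega)]; push_cast; ring
    have h19 : 18 + (k + 1) = 19 + k := by omega
    rw [h19] at this
    rw [← h87]
    exact_mod_cast this
  obtain ⟨b, hb⟩ : ∃ b : ℝ, b = z - k := ⟨_, rfl⟩
  have hz : z = k + b := by rw [hb]; ring
  rw [hz] at hk1 hk2 ⊢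
  have hb0 : 0 ≤ b := by linarith
  have hb1 : 0 ≤ 1 - b := by linarith
  have p0 := mul_le_mul_of_nonneg_left b0 hb1
  have p1 := mul_le_mul_of_nonneg_left b1 hb0
  nlinarith [mul_nonneg hb0 hb1, sq_nonneg (b - 1 / 2)]

end Pool.Agent.Helper32.Kak
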