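import Mathlib
import Pool.Agent.Helper32.Kak.Cert

/-!
The region and the containment of the needle.
-/

namespace Pool.Agent.Helper32.Kak

open Complex MeasureTheory

/-- The profile of the arms. -/
noncomputable def V (x : ℝ) : ℝ := vf (124 * x - 18) / 1047552

/-- The distance function of the needle, zero for negative arguments. -/
noncomputable def Mp (y : ℝ) : ℝ := mf (44 * y) / 1047552

/-- The odd extension. -/
noncomputable def mo (y : ℝ) : ℝ := Mp y - Mp (-y)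

theorem V_antitone : Antitone V := by
  intro a b h
  unfold V
  have := vf_antitone (show 124 * a - 18 ≤ 124 * b - 18 by linarith)
  exact div_le_div_of_nonneg_right this (by norm_num)

theorem V_nonneg (x : ℝ) : 0 ≤ V x := div_nonneg (vf_nonneg _) (by norm_num)

theorem Mp_continuous : Continuous Mp := by
  unfold Mp mf
  have := pl_continuous (fun j => (mn j : ℝ)) 44
  fun_prop

theorem mo_continuous : Continuous mo := by
  unfold mo
  have := Mp_continuous
  fun_prop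

theorem Mp_of_nonpos {y : ℝ} (h : y ≤ 0) : Mp y = 0 := by
  unfold Mp mf
  rw [pl_of_nonpos _ _ (by linarith)]
  simp [mn, mL]

theorem mo_neg (y : ℝ) : mo (-y) = -mo y := by
  unfold mo
  rw [neg_neg]
  ring

theorem mo_of_nonneg {y : ℝ} (h : 0 ≤ y) : mo y = Mp y := by
  unfold mo
  rw [Mp_of_nonpos (y := -y) (by linarith), sub_zero]

theorem Mp_bounds {τ : ℝ} (h0 : 0 ≤ τ) (h1 : τ ≤ 1) : 0 ≤ Mp τ ∧ Mp τ ≤ 1 / 4 := by
  obtain ⟨k, hk, hk1, hk2⟩ := exists_cell (K := 44) (by norm_num)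
    (show 0 ≤ 44 * τ by linarith) (by push_cast; linarith)
  have e1 : mf (44 * τ) = mn k + ((mn (k + 1) : ℝ) - mn k) * (44 * τ - k) := pl_cell _ hk hk1 hk2
  have b1 : (mn k : ℝ) ≤ 112541 := by exact_mod_cast certM k (by omega)
  have b2 : (mn (k + 1) : ℝ) ≤ 112541 := by exact_mod_cast certM (k + 1) (by omega)
  have b3 : (0 : ℝ) ≤ mn k := by positivity
  have b4 : (0 : ℝ) ≤ mn (k + 1) := by positivity
  have c1 : 0 ≤ 44 * τ - k := by linarith
  have c2 : 0 ≤ 1 - (44 * τ - k) := by linarith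
  have e2 : mf (44 * τ) = (1 - (44 * τ - k)) * mn k + (44 * τ - k) * mn (k + 1) := by
    rw [e1]; ring
  have l1 : 0 ≤ mf (44 * τ) := by
    rw [e2]
    exact add_nonneg (mul_nonneg c2 b3) (mul_nonneg c1 b4)
  have l2 : mf (44 * τ) ≤ 112541 := by
    rw [e2]
    have p1 := mul_le_mul_of_nonneg_left b1 c2
    have p2 := mul_le_mul_of_nonneg_left b2 c1
    linarith
  unfold Mp
  constructor
  · exact div_nonneg l1 (by norm_num)
  · rw [div_le_iff₀ (by norm_num)]
    linarith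

theorem mA {x τ : ℝ} (hx0 : 18 / 124 ≤ x) (hx1 : x ≤ 106 / 124) (hτ0 : 0 ≤ τ) (hτ1 : τ ≤ 1) :
    Mp τ - τ / 4 * x ≤ V x := by
  have h := condA (y := 124 * x - 18) (z := 44 * τ) (by linarith) (by linarith) (by linarith)
    (by linarith)
  unfold Mp V
  rw [sub_le_iff_le_add, div_add' _ _ _ (by norm_num : (1047552 : ℝ) ≠ 0)]
  apply div_le_div_of_nonneg_right _ (by norm_num)
  linarith

theorem mB {τ : ℝ} (hτ0 : 0 ≤ τ) (hτ1 : τ ≤ 1) :
    τ / 4 * (106 / 124 - 44 / 124 * τ) - Mp τ ≤ V (106 / 124 - 44 / 124 * τ) := by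
  have h := condB (z := 44 * τ) (by linarith) (by linarith)
  unfold Mp V
  have e : 124 * (106 / 124 - 44 / 124 * τ) - 18 = 88 - 44 * τ := by ring
  rw [e, sub_le_iff_le_add, ← add_div, le_div_iff₀ (by norm_num)]
  linarith

theorem mD {τ : ℝ} (hτ0 : 0 ≤ τ) (hτ1 : τ ≤ 1) :
    (1 / 2 - τ / 4) * (18 / 124 + 44 / 124 * τ) - Mp τ ≤ V (18 / 124 + 44 / 124 * τ) := by
  have h := condD (z := 44 * τ) (by linarith) (by linarith)
  unfold Mp V
  have e : 124 * (18 / 124 + 44 / 124 * τ) - 18 = 44 * τ := by ring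
  rw [e, sub_le_iff_le_add, ← add_div, le_div_iff₀ (by norm_num)]
  linarith

/-- The arm along the positive real axis. -/
def arm (δ ε : ℝ) : Set ℂ :=
  {w | 0 ≤ w.re ∧ w.re ≤ 106 / 124 + ε ∧ |w.im| ≤ δ * (V (w.re - ε) + ε)}

/-- The star-shaped region. -/
def region (δ ε : ℝ) : Set ℂ :=
  {w | ‖w‖ ≤ 18 / 124 + ε ∨ ∃ k : ℤ, exp (-(k * δ * I)) * w ∈ arm δ ε}

theorem arm_star {δ ε : ℝ} (hδ : 0 < δ) (hε : 0 < ε) {w : ℂ} (hw : w ∈ arm δ ε) {a : ℝ} (ha0 : 0 ≤ a)
    (ha1 : a ≤ 1) : (a : ℂ) * w ∈ arm δ ε := by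
  obtain ⟨h1, h2, h3⟩ := hw
  have e1 : ((a : ℂ) * w).re = a * w.re := by simp
  have e2 : ((a : ℂ) * w).im = a * w.im := by simp
  have hle : a * w.re ≤ w.re := mul_le_of_le_one_left h1 ha1
  refine ⟨?_, ?_, ?_⟩
  · rw [e1]; positivity
  · rw [e1]; linarith
  · rw [e1, e2, abs_mul, abs_of_nonneg ha0]
    have hV := V_antitone (show a * w.re - ε ≤ w.re - ε by linarith)
    have hb : 0 ≤ δ * (V (w.re - ε) + ε) :=
      mul_nonneg hδ.le (add_nonneg (V_nonneg _) hε.le)
    calc a * |w.im| ≤ 1 * |w.im| := mul_le_mul_of_nonneg_right ha1 (abs_nonneg _)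
      _ ≤ δ * (V (w.re - ε) + ε) := by rw [one_mul]; exact h3
      _ ≤ δ * (V (a * w.re - ε) + ε) := mul_le_mul_of_nonneg_left (by linarith) hδ.le

theorem region_star {δ ε : ℝ} (hδ : 0 < δ) (hε : 0 < ε) {w : ℂ} (hw : w ∈ region δ ε) {a : ℝ}
    (ha0 : 0 ≤ a) (ha1 : a ≤ 1) : (a : ℂ) * w ∈ region δ ε := by
  rcases hw with h | ⟨k, hk⟩
  · left
    rw [norm_mul, Complex.norm_real, Real.norm_of_nonneg ha0]
    calc a * ‖w‖ ≤ 1 * ‖w‖ := mul_le_mul_of_nonneg_right ha1 (norm_nonneg _)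
      _ ≤ _ := by rw [one_mul]; exact h
  · right
    refine ⟨k, ?_⟩
    have : exp (-(k * δ * I)) * ((a : ℂ) * w) = (a : ℂ) * (exp (-(k * δ * I)) * w) := by ring
    rw [this]
    exact arm_star hδ hε hk ha0 ha1

theorem arm_conj {δ ε : ℝ} {w : ℂ} (hw : w ∈ arm δ ε) : (starRingEnd ℂ) w ∈ arm δ ε := by
  obtain ⟨h1, h2, h3⟩ := hw
  refine ⟨by simpa using h1, by simpa using h2, ?_⟩
  simpa using h3

theorem region_conj {δ ε : ℝ} {w : ℂ} (hw : w ∈ region δ ε) : (starRingEnd ℂ) w ∈ region δ ε := by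
  rcases hw with h | ⟨k, hk⟩
  · left
    rwa [RCLike.norm_conj]
  · right
    refine ⟨-k, ?_⟩
    have h1 := arm_conj hk
    rw [map_mul, ← exp_conj] at h1
    have h2 : (starRingEnd ℂ) (-(k * δ * I)) = -(((-k : ℤ) : ℂ) * δ * I) := by
      simp
    rw [h2] at h1
    exact h1

theorem region_rot {δ ε : ℝ} {w : ℂ} (hw : w ∈ region δ ε) (j : ℤ) :
    exp (j * δ * I) * w ∈ region δ ε := by
  rcases hw with h | ⟨k, hk⟩
  · left
    rw [norm_mul]
    have : ‖exp ((j : ℂ) * δ * I)‖ = 1 := by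
      have := Complex.norm_exp_ofReal_mul_I ((j : ℝ) * δ)
      push_cast at this
      exact this
    rw [this, one_mul]
    exact h
  · right
    refine ⟨k + j, ?_⟩
    have : exp (-(((k + j : ℤ) : ℂ) * δ * I)) * (exp (j * δ * I) * w) =
        exp (-(k * δ * I)) * w := by
      rw [← mul_assoc, ← exp_add]
      congr 2
      push_cast
      ring
    rw [this]
    exact hk

/-- The basic containment in an arm. -/
theorem arm_mem {δ ε γ σ m : ℝ} (hδ : 0 < δ) (hδ1 : δ ≤ 1) (hδε : δ ^ 2 ≤ ε) (hγ0 : 0 ≤ γ)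
    (hγ1 : γ ≤ δ / 2) (hσ0 : 0 ≤ σ) (hσ1 : σ ≤ 106 / 124) (hm0 : 0 ≤ m) (hm1 : m ≤ 1)
    (h : |m - σ * (γ / δ)| ≤ V σ) :
    exp (-(γ * I)) * (σ + δ * m * I) ∈ arm δ ε := by
  have e0 : exp (-(γ * I)) = Real.cos γ - Real.sin γ * I := by
    have : -((γ : ℂ) * I) = ((-γ : ℝ) : ℂ) * I := by push_cast; ring
    rw [this, exp_mul_I, ← ofReal_cos, ← ofReal_sin, Real.cos_neg, Real.sin_neg]
    push_cast
    ring
  have e1 : exp (-(γ * I)) * (σ + δ * m * I) =
      ((σ * Real.cos γ + δ * m * Real.sin γ : ℝ) : ℂ) +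
        ((δ * m * Real.cos γ - σ * Real.sin γ : ℝ) : ℂ) * I := by
    rw [e0]
    generalize Real.cos γ = c
    generalize Real.sin γ = s
    push_cast
    linear_combination (-(s : ℂ) * (δ * m)) * I_sq
  have gre : ∀ x y : ℝ, ((x : ℂ) + (y : ℂ) * I).re = x := by intro x y; simp
  have gim : ∀ x y : ℝ, ((x : ℂ) + (y : ℂ) * I).im = y := by intro x y; simp
  have hre : (exp (-(γ * I)) * (σ + δ * m * I)).re = σ * Real.cos γ + δ * m * Real.sin γ := by
    rw [e1, gre]
  have him : (exp (-(γ * I)) * (σ + δ * m * I)).im = δ * m * Real.cos γ - σ * Real.sin γ := by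
    rw [e1, gim]
  have hγ1' : γ ≤ 1 := by linarith
  have hcos1 : Real.cos γ ≤ 1 := Real.cos_le_one γ
  have hcos2 : 1 - γ ^ 2 / 2 ≤ Real.cos γ := Real.one_sub_sq_div_two_le_cos
  have hsin1 : Real.sin γ ≤ γ := Real.sin_le hγ0
  have hsin0 : 0 ≤ Real.sin γ :=
    Real.sin_nonneg_of_nonneg_of_le_pi hγ0 (by linarith [Real.pi_gt_three])
  have hsin2 : γ - γ ^ 3 / 4 ≤ Real.sin γ := by
    rcases hγ0.eq_or_lt with h0 | h0
    · rw [← h0]; simp
    · have h1 := (Real.sin_gt_sub_cube h0).le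
      have h2 : 0 ≤ γ ^ 3 := by positivity
      linarith
  have hδm : 0 ≤ δ * m := mul_nonneg hδ.le hm0
  have hγδ : γ ^ 2 ≤ δ ^ 2 / 4 := by nlinarith
  have hre_le : σ * Real.cos γ + δ * m * Real.sin γ ≤ σ + ε := by
    have h1 : σ * Real.cos γ ≤ σ := mul_le_of_le_one_right hσ0 hcos1
    have h2 : δ * m * Real.sin γ ≤ δ * 1 * (δ / 2) := by
      apply mul_le_mul (mul_le_mul_of_nonneg_left hm1 hδ.le) (hsin1.trans hγ1) hsin0 (by linarith)
    nlinarith
  refine ⟨?_, ?_, ?_⟩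
  · rw [hre]
    have hc : 0 ≤ Real.cos γ := by nlinarith
    positivity
  · rw [hre]; linarith
  · rw [hre, him]
    have hV := V_antitone (show σ * Real.cos γ + δ * m * Real.sin γ - ε ≤ σ by linarith)
    have hmain : |δ * m - σ * γ| ≤ δ * V σ := by
      have : δ * m - σ * γ = δ * (m - σ * (γ / δ)) := by field_simp
      rw [this, abs_mul, abs_of_pos hδ]
      exact mul_le_mul_of_nonneg_left h hδ.le
    have herr : |(δ * m * Real.cos γ - σ * Real.sin γ) - (δ * m - σ * γ)| ≤ δ * ε := by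
      have h1 : (δ * m * Real.cos γ - σ * Real.sin γ) - (δ * m - σ * γ) =
          σ * (γ - Real.sin γ) - δ * m * (1 - Real.cos γ) := by ring
      rw [h1]
      have h2 : 0 ≤ σ * (γ - Real.sin γ) := mul_nonneg hσ0 (by linarith)
      have h3 : σ * (γ - Real.sin γ) ≤ 1 * (γ ^ 3 / 4) := by
        apply mul_le_mul (by linarith) (by linarith) (by linarith) (by norm_num)
      have h4 : 0 ≤ δ * m * (1 - Real.cos γ) := mul_nonneg hδm (by linarith)
      have h5 : δ * m * (1 - Real.cos γ) ≤ δ * 1 * (γ ^ 2 / 2) := by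
        apply mul_le_mul (mul_le_mul_of_nonneg_left hm1 hδ.le) (by linarith) (by linarith)
          (by linarith)
      have h6 : γ ^ 3 ≤ δ / 2 * (δ ^ 2 / 4) := by
        calc γ ^ 3 = γ * γ ^ 2 := by ring
          _ ≤ δ / 2 * (δ ^ 2 / 4) := mul_le_mul hγ1 hγδ (sq_nonneg _) (by linarith)
      have h7 : δ * (γ ^ 2 / 2) ≤ δ * (δ ^ 2 / 8) := mul_le_mul_of_nonneg_left (by linarith) hδ.le
      have h8 : δ * δ ^ 2 ≤ δ * ε := mul_le_mul_of_nonneg_left hδε hδ.le
      rw [abs_le]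
      constructor <;> nlinarith
    calc |δ * m * Real.cos γ - σ * Real.sin γ|
        = |(δ * m - σ * γ) + ((δ * m * Real.cos γ - σ * Real.sin γ) - (δ * m - σ * γ))| := by
          congr 1; ring
      _ ≤ |δ * m - σ * γ| + |(δ * m * Real.cos γ - σ * Real.sin γ) - (δ * m - σ * γ)| :=
          abs_add_le _ _
      _ ≤ δ * V σ + δ * ε := add_le_add hmain herr
      _ ≤ δ * (V (σ * Real.cos γ + δ * m * Real.sin γ - ε) + ε) := by
          have := mul_le_mul_of_nonneg_left hV hδ.le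
          linarith

/-- The needle in a basic position. -/
theorem needle_base {δ ε τ σ : ℝ} (hδ : 0 < δ) (hδ1 : δ ≤ 1) (hδε : δ ^ 2 ≤ ε) 
    (hτ0 : 0 ≤ τ) (hτ1 : τ ≤ 1) (hσ0 : -(18 / 124 + 44 / 124 * τ) ≤ σ)
    (hσ1 : σ ≤ 106 / 124 - 44 / 124 * τ) (n : ℤ) (hn : n * δ = 2 * Real.pi) (hodd : Odd n) :
    exp ((δ * τ / 4 : ℝ) * I) * (σ - δ * Mp τ * I) ∈ region δ ε := by
  obtain ⟨hm0, hm14⟩ := Mp_bounds hτ0 hτ1
  have hm1 : Mp τ ≤ 1 := by linarith
  have hε0 : 0 < ε := lt_of_lt_of_le (by positivity) hδε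
  rcases le_total (18 / 124) |σ| with hbig | hsmall
  · rcases le_total 0 σ with hpos | hneg
    · -- the arm in front
      rw [abs_of_nonneg hpos] at hbig
      have hγδ : δ * τ / 4 / δ = τ / 4 := by field_simp
      have hmem := arm_mem (δ := δ) (ε := ε) (γ := δ * τ / 4) (σ := σ) (m := Mp τ) hδ hδ1 hδε
        (by positivity) (by nlinarith) hpos (by linarith) hm0 hm1 (by
          rw [hγδ, abs_le]
          constructor
          · have h1 := mB hτ0 hτ1
            have h2 := V_antitone hσ1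
            have h3 : τ / 4 * σ ≤ τ / 4 * (106 / 124 - 44 / 124 * τ) :=
              mul_le_mul_of_nonneg_left hσ1 (by linarith)
            linarith
          · have h1 := mA hbig (by linarith) hτ0 hτ1
            linarith)
      have h1 := arm_conj hmem
      rw [map_mul, ← exp_conj] at h1
      right
      refine ⟨0, ?_⟩
      have e1 : (starRingEnd ℂ) (-(((δ * τ / 4 : ℝ) : ℂ) * I)) = ((δ * τ / 4 : ℝ) : ℂ) * I := by
        rw [map_neg, map_mul, conj_ofReal, conj_I, mul_neg, neg_neg]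
      have e2 : (starRingEnd ℂ) ((σ : ℂ) + δ * (Mp τ : ℂ) * I) = σ - δ * (Mp τ : ℂ) * I := by
        simp
        ring
      rw [e1, e2] at h1
      simpa using h1
    · -- the opposite arm
      rw [abs_of_nonpos hneg] at hbig
      have hγδ : δ * (1 / 2 - τ / 4) / δ = 1 / 2 - τ / 4 := by field_simp
      have hmem := arm_mem (δ := δ) (ε := ε) (γ := δ * (1 / 2 - τ / 4)) (σ := -σ) (m := Mp τ) hδ
        hδ1 hδε (mul_nonneg hδ.le (by linarith)) (by nlinarith) (by linarith) (by linarith) hm0 hm1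
        (by
          rw [hγδ, abs_le]
          have hσ0' : -σ ≤ 18 / 124 + 44 / 124 * τ := by linarith
          constructor
          · have h1 := mD hτ0 hτ1
            have h2 := V_antitone hσ0'
            have h3 : (1 / 2 - τ / 4) * (-σ) ≤ (1 / 2 - τ / 4) * (18 / 124 + 44 / 124 * τ) :=
              mul_le_mul_of_nonneg_left hσ0' (by linarith)
            linarith
          · have h1 := mA hbig (by linarith) hτ0 hτ1
            have h2 : τ / 4 * (-σ) ≤ (1 / 2 - τ / 4) * (-σ) :=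
              mul_le_mul_of_nonneg_right (by linarith) (by linarith)
            linarith)
      obtain ⟨l, hl⟩ := hodd
      right
      refine ⟨l + 1, ?_⟩
      have key : exp (-(((l + 1 : ℤ) : ℂ) * δ * I)) *
          (exp ((δ * τ / 4 : ℝ) * I) * (σ - δ * Mp τ * I)) =
          exp (-(((δ * (1 / 2 - τ / 4) : ℝ) : ℂ) * I)) * (((-σ : ℝ) : ℂ) + δ * Mp τ * I) := by
        have hang : -(((l + 1 : ℤ) : ℂ) * δ * I) + ((δ * τ / 4 : ℝ) : ℂ) * I =
            -(((δ * (1 / 2 - τ / 4) : ℝ) : ℂ) * I) + -(Real.pi * I) := by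
          have h1 : (l + 1 : ℝ) * δ = Real.pi + δ / 2 := by
            rw [hl] at hn
            push_cast at hn
            linarith
          have h2 : ((l + 1 : ℤ) : ℂ) * δ = Real.pi + δ / 2 := by
            have := congrArg (fun x : ℝ => (x : ℂ)) h1
            push_cast at this ⊢
            exact this
          rw [h2]
          push_cast
          ring
        rw [← mul_assoc, ← exp_add, hang, exp_add, exp_neg (Real.pi * I), exp_pi_mul_I]
        push_cast
        ring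
      rw [key]
      exact hmem
  · left
    have h1 : ‖exp ((δ * τ / 4 : ℝ) * I)‖ = 1 := Complex.norm_exp_ofReal_mul_I _
    rw [norm_mul, h1, one_mul]
    have h2 : (σ : ℂ) - δ * Mp τ * I = (σ : ℂ) + ((-(δ * Mp τ) : ℝ) : ℂ) * I := by
      push_cast; ring
    rw [h2, Complex.norm_add_mul_I]
    rw [Real.sqrt_le_left (by linarith)]
    have h3 : σ ^ 2 ≤ (18 / 124) ^ 2 := by
      rw [← sq_abs σ]
      exact pow_le_pow_left₀ (abs_nonneg _) hsmall 2
    have h4 : (-(δ * Mp τ)) ^ 2 ≤ ε * (1 / 4) := by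
      calc (-(δ * Mp τ)) ^ 2 = δ ^ 2 * Mp τ ^ 2 := by ring
        _ ≤ ε * (1 / 4) := by
          apply mul_le_mul hδε (by nlinarith) (by positivity) hε0.le
    nlinarith

end Pool.Agent.Helper32.Kak
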