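import Mathlib
import Pool.Agent.Helper32.Kak.Geom

/-!
The motion of the needle.
-/

namespace Pool.Agent.Helper32.Kak

open Complex

/-- The triangle wave. -/
noncomputable def Yf (n : ℕ) (θ : ℝ) : ℝ := 2 / Real.pi * Real.arcsin (Real.sin (n * θ))

/-- The shifted triangle wave. -/
noncomputable def Zf (n : ℕ) (θ : ℝ) : ℝ := 2 / Real.pi * Real.arcsin (Real.cos (n * θ))

/-- The point of the needle at signed distance `s` from its centre in the position with the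
direction `θ`. -/
noncomputable def wn (n : ℕ) (δ θ s : ℝ) : ℂ :=
  exp (θ * I) * (((44 / 124 * Zf n θ + s : ℝ) : ℂ) - δ * mo (Yf n θ) * I)

theorem wn_base {n : ℕ} {l : ℕ} (hn : n = 2 * l + 1) {δ ε : ℝ} (hδn : n * δ = 2 * Real.pi)
    (hδ : 0 < δ) (hδ1 : δ ≤ 1) (hδε : δ ^ 2 ≤ ε) {θ s : ℝ} (hθ0 : 0 ≤ θ)
    (hθ1 : n * θ ≤ Real.pi / 2) (hs0 : -(1 / 2) ≤ s) (hs1 : s ≤ 1 / 2) :
    wn n δ θ s ∈ region δ ε := by
  have hpi := Real.pi_pos
  have hn0 : (0 : ℝ) < n := by rw [hn]; positivity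
  have hnθ : 0 ≤ n * θ := by positivity
  have hY : Yf n θ = 2 * (n * θ) / Real.pi := by
    unfold Yf
    rw [Real.arcsin_sin (by linarith) hθ1]
    ring
  have hZ : Zf n θ = 1 - 2 * (n * θ) / Real.pi := by
    unfold Zf
    rw [← Real.sin_pi_div_two_sub, Real.arcsin_sin (by linarith) (by linarith)]
    field_simp
  set τ : ℝ := 2 * (n * θ) / Real.pi with hτ
  have hτ0 : 0 ≤ τ := by positivity
  have hτ1 : τ ≤ 1 := by
    rw [hτ, div_le_one hpi]
    linarith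
  have hθτ : δ * τ / 4 = θ := by
    rw [hτ]
    have : δ * (2 * (n * θ) / Real.pi) / 4 = (n * δ) * θ / (2 * Real.pi) := by
      field_simp
      ring
    rw [this, hδn]
    field_simp
  have h := needle_base (δ := δ) (ε := ε) (τ := τ) (σ := 44 / 124 * (1 - τ) + s) hδ hδ1 hδε hτ0 hτ1
    (by linarith) (by linarith) (n : ℤ) (by exact_mod_cast hδn) ⟨(l : ℤ), by rw [hn]; push_cast; ring⟩
  unfold wn
  rw [hY, hZ, mo_of_nonneg hτ0, ← hθτ]
  rw [hθτ] at h ⊢
  exact h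

theorem wn_neg (n : ℕ) (δ θ s : ℝ) : wn n δ (-θ) s = (starRingEnd ℂ) (wn n δ θ s) := by
  have hY : Yf n (-θ) = -Yf n θ := by
    unfold Yf
    rw [mul_neg, Real.sin_neg, Real.arcsin_neg]
    ring
  have hZ : Zf n (-θ) = Zf n θ := by
    unfold Zf
    rw [mul_neg, Real.cos_neg]
  unfold wn
  rw [hY, hZ, mo_neg, map_mul, ← exp_conj, map_sub, conj_ofReal]
  have e1 : (starRingEnd ℂ) ((θ : ℂ) * I) = ((-θ : ℝ) : ℂ) * I := by
    rw [map_mul, conj_ofReal, conj_I]; push_cast; ring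
  have e2 : (starRingEnd ℂ) ((δ : ℂ) * (mo (Yf n θ) : ℂ) * I) = -(δ * (mo (Yf n θ) : ℂ) * I) := by
    rw [map_mul, map_mul, conj_ofReal, conj_ofReal, conj_I]; ring
  rw [e1, e2]
  push_cast
  ring

theorem wn_even (n : ℕ) {δ : ℝ} (hδn : n * δ = 2 * Real.pi) (k : ℤ) (θ s : ℝ) :
    wn n δ (θ + k * δ) s = exp (k * δ * I) * wn n δ θ s := by
  have harg : (n : ℝ) * (θ + k * δ) = n * θ + k * (2 * Real.pi) := by
    rw [← hδn]; ring
  have hY : Yf n (θ + k * δ) = Yf n θ := by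
    unfold Yf
    rw [harg, Real.sin_add_int_mul_two_pi]
  have hZ : Zf n (θ + k * δ) = Zf n θ := by
    unfold Zf
    rw [harg, Real.cos_add_int_mul_two_pi]
  unfold wn
  rw [hY, hZ, ← mul_assoc, ← exp_add]
  congr 2
  push_cast
  ring

theorem wn_odd {n : ℕ} {l : ℕ} (hn : n = 2 * l + 1) {δ : ℝ} (hδn : n * δ = 2 * Real.pi)
    (θ s : ℝ) :
    wn n δ (θ + δ / 2) s = exp (((l + 1 : ℤ) : ℂ) * δ * I) * wn n δ θ (-s) := by
  have harg : (n : ℝ) * (θ + δ / 2) = n * θ + Real.pi := by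
    have : (n : ℝ) * (θ + δ / 2) = n * θ + (n * δ) / 2 := by ring
    rw [this, hδn]; ring
  have hY : Yf n (θ + δ / 2) = -Yf n θ := by
    unfold Yf
    rw [harg, Real.sin_add_pi, Real.arcsin_neg]
    ring
  have hZ : Zf n (θ + δ / 2) = -Zf n θ := by
    unfold Zf
    rw [harg, Real.cos_add_pi, Real.arcsin_neg]
    ring
  have hl : ((l + 1 : ℤ) : ℂ) * δ * I = ((δ / 2 : ℝ) : ℂ) * I + Real.pi * I := by
    have h1 : ((l : ℝ) + 1) * δ = δ / 2 + Real.pi := by
      rw [hn] at hδn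
      push_cast at hδn
      linarith
    have h2 : ((l : ℂ) + 1) * δ = ((δ / 2 : ℝ) : ℂ) + Real.pi := by
      have := congrArg (fun x : ℝ => (x : ℂ)) h1
      push_cast at this ⊢
      exact this
    push_cast at h2 ⊢
    rw [h2]
    ring
  unfold wn
  rw [hY, hZ, mo_neg, hl, exp_add, exp_pi_mul_I]
  have e1 : exp (((θ + δ / 2 : ℝ) : ℂ) * I) = exp (((δ / 2 : ℝ) : ℂ) * I) * exp ((θ : ℂ) * I) := by
    rw [← exp_add]
    congr 1
    push_cast
    ring
  rw [e1]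
  push_cast
  ring

theorem wn_mem {n : ℕ} {l : ℕ} (hn : n = 2 * l + 1) {δ ε : ℝ} (hδn : n * δ = 2 * Real.pi)
    (hδ : 0 < δ) (hδ1 : δ ≤ 1) (hδε : δ ^ 2 ≤ ε) (θ s : ℝ) (hs0 : -(1 / 2) ≤ s)
    (hs1 : s ≤ 1 / 2) : wn n δ θ s ∈ region δ ε := by
  have hpi := Real.pi_pos
  have hn0 : (0 : ℝ) < n := by rw [hn]; positivity
  -- small angles
  have small : ∀ θ s : ℝ, |n * θ| ≤ Real.pi / 2 → -(1 / 2) ≤ s → s ≤ 1 / 2 →
      wn n δ θ s ∈ region δ ε := by
    intro θ s hθ h0 h1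
    rcases le_total 0 θ with hpos | hneg
    · exact wn_base hn hδn hδ hδ1 hδε hpos ((le_abs_self _).trans hθ) h0 h1
    · have h2 := wn_base hn hδn hδ hδ1 hδε (θ := -θ) (s := s) (by linarith) (by
        have := neg_abs_le (n * θ)
        linarith) h0 h1
      have h3 := region_conj h2
      rw [← wn_neg, neg_neg] at h3
      exact h3
  set j : ℤ := round (n * θ / Real.pi) with hj
  have hjr : |n * θ / Real.pi - j| ≤ 1 / 2 := abs_sub_round _
  have hδ2 : δ = 2 * Real.pi / n := by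
    rw [← hδn]; field_simp
  have hθ' : |n * (θ - j * (δ / 2))| ≤ Real.pi / 2 := by
    have e1 : n * (θ - j * (δ / 2)) = Real.pi * (n * θ / Real.pi - j) := by
      have : n * (θ - j * (δ / 2)) = n * θ - j * (n * δ) / 2 := by ring
      rw [this, hδn]
      field_simp
    rw [e1, abs_mul, abs_of_pos hpi]
    calc Real.pi * |n * θ / Real.pi - j| ≤ Real.pi * (1 / 2) :=
          mul_le_mul_of_nonneg_left hjr hpi.le
      _ = _ := by ring
  rcases Int.even_or_odd' j with ⟨k, hk | hk⟩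
  · have h1 := region_rot (small (θ - j * (δ / 2)) s hθ' hs0 hs1) k
    rw [← wn_even n hδn] at h1
    have : θ - j * (δ / 2) + k * δ = θ := by
      rw [hk]; push_cast; ring
    rwa [this] at h1
  · have h1 := region_rot (small (θ - j * (δ / 2)) (-s) hθ' (by linarith) (by linarith)) (l + 1)
    rw [← wn_odd hn hδn] at h1
    have h2 := region_rot h1 k
    rw [← wn_even n hδn] at h2
    have : θ - j * (δ / 2) + δ / 2 + k * δ = θ := by
      rw [hk]; push_cast; ring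
    rwa [this] at h2

end Pool.Agent.Helper32.Kak
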