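import Mathlib
import Pool.Agent.Helper32.Kak.Motion

/-!
The area of the region.
-/

namespace Pool.Agent.Helper32.Kak

open Complex MeasureTheory Set

theorem V_continuous : Continuous V := by
  unfold V vf
  have := pl_continuous (fun j => (vn j : ℝ)) 88
  fun_prop

theorem V_le (x : ℝ) : V x ≤ 1 / 4 := by
  have h1 : vf (124 * x - 18) ≤ 77094 := by
    rcases le_total 0 (124 * x - 18) with h | h
    · have h2 := vf_antitone h
      have h3 : vf 0 = vn 0 := pl_of_nonpos _ _ le_rfl
      rw [h3] at h2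
      have h4 : vn 0 = 77094 := by decide +kernel
      rw [h4] at h2
      exact_mod_cast h2
    · have h3 : vf (124 * x - 18) = vn 0 := pl_of_nonpos _ _ h
      have h4 : vn 0 = 77094 := by decide +kernel
      rw [h3, h4]
      norm_num
  unfold V
  rw [div_le_iff₀ (by norm_num)]
  linarith

/-- The part of the arm outside the disc. -/
def arm' (δ ε : ℝ) : Set ℂ :=
  {w | 18 / 124 ≤ w.re ∧ w.re ≤ 106 / 124 + ε ∧ |w.im| ≤ δ * (V (w.re - ε) + ε)}

theorem arm'_closed (δ ε : ℝ) : IsClosed (arm' δ ε) := by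
  unfold arm'
  have hV := V_continuous
  refine IsClosed.and ?_ (IsClosed.and ?_ ?_)
  · exact isClosed_le continuous_const Complex.continuous_re
  · exact isClosed_le Complex.continuous_re continuous_const
  · apply isClosed_le
    · exact Complex.continuous_im.abs
    · have : Continuous fun w : ℂ => V (w.re - ε) :=
        hV.comp (Complex.continuous_re.sub continuous_const)
      fun_prop

/-- The integral of the profile of the arm. -/
theorem integral_V : ∫ x in (18 / 124 : ℝ)..(106 / 124), V x = 2253081 / 129896448 := by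
  unfold V
  have h1 : ∫ x in (18 / 124 : ℝ)..(106 / 124), vf (124 * x - 18) / 1047552 =
      (∫ x in (18 / 124 : ℝ)..(106 / 124), vf (124 * x - 18)) / 1047552 := by
    rw [intervalIntegral.integral_div]
  rw [h1, intervalIntegral.integral_comp_mul_sub (fun x => vf x) (by norm_num) 18]
  have h2 : (124 : ℝ) * (18 / 124) - 18 = 0 := by norm_num
  have h3 : (124 : ℝ) * (106 / 124) - 18 = (88 : ℕ) := by norm_num
  rw [h2, h3]
  have h4 : ∫ x in (0 : ℝ)..((88 : ℕ) : ℝ), vf x = 4506162 / 2 := by
    unfold vf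
    rw [pl_integral, ← Finset.sum_div]
    congr 1
    have := certSum
    exact_mod_cast this
  rw [h4, smul_eq_mul]
  norm_num

theorem integral_arm {ε : ℝ} (hε : 0 < ε) :
    ∫ x in (18 / 124 : ℝ)..(106 / 124 + ε), (V (x - ε) + ε) ≤
      2253081 / 129896448 + ε / 4 + ε * (88 / 124 + ε) := by
  have hV := V_continuous
  rw [intervalIntegral.integral_add (Continuous.intervalIntegrable (by fun_prop) _ _)
    (Continuous.intervalIntegrable (by fun_prop) _ _), intervalIntegral.integral_const,
    intervalIntegral.integral_comp_sub_right (fun x => V x) ε]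
  have h1 : (106 / 124 + ε - ε : ℝ) = 106 / 124 := by ring
  rw [h1, ← intervalIntegral.integral_add_adjacent_intervals (b := 18 / 124)
    (hV.intervalIntegrable _ _) (hV.intervalIntegrable _ _), integral_V]
  have h2 : ∫ x in (18 / 124 - ε : ℝ)..(18 / 124), V x ≤ ∫ x in (18 / 124 - ε : ℝ)..(18 / 124),
      (1 / 4 : ℝ) := by
    apply intervalIntegral.integral_mono_on (by linarith) (hV.intervalIntegrable _ _)
      (by simp)
    intro x _
    exact V_le x
  rw [intervalIntegral.integral_const] at h2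
  simp only [smul_eq_mul] at h2 ⊢
  have h3 : (106 / 124 + ε - 18 / 124) * ε = ε * (88 / 124 + ε) := by ring
  rw [h3]
  linarith

theorem volume_arm' {δ ε : ℝ} (hδ : 0 < δ) (hε : 0 < ε) :
    volume (arm' δ ε) ≤
      ENNReal.ofReal (2 * δ * (2253081 / 129896448 + ε / 4 + ε * (88 / 124 + ε))) := by
  have hV := V_continuous
  have h1 : arm' δ ε = measurableEquivRealProd ⁻¹' {p : ℝ × ℝ | 18 / 124 ≤ p.1 ∧
      p.1 ≤ 106 / 124 + ε ∧ |p.2| ≤ δ * (V (p.1 - ε) + ε)} := by
    ext w
    simp [arm', measurableEquivRealProd_apply]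
  have hmeas : MeasurableSet {p : ℝ × ℝ | 18 / 124 ≤ p.1 ∧
      p.1 ≤ 106 / 124 + ε ∧ |p.2| ≤ δ * (V (p.1 - ε) + ε)} := by
    apply IsClosed.measurableSet
    refine IsClosed.and ?_ (IsClosed.and ?_ ?_)
    · exact isClosed_le continuous_const continuous_fst
    · exact isClosed_le continuous_fst continuous_const
    · apply isClosed_le
      · exact continuous_snd.abs
      · have : Continuous fun p : ℝ × ℝ => V (p.1 - ε) :=
          hV.comp (continuous_fst.sub continuous_const)
        fun_prop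
  rw [h1, volume_preserving_equiv_real_prod.measure_preimage_equiv, Measure.volume_eq_prod,
    Measure.prod_apply hmeas]
  have h2 : ∀ x : ℝ, volume (Prod.mk x ⁻¹' {p : ℝ × ℝ | 18 / 124 ≤ p.1 ∧
      p.1 ≤ 106 / 124 + ε ∧ |p.2| ≤ δ * (V (p.1 - ε) + ε)}) =
      (Icc (18 / 124 : ℝ) (106 / 124 + ε)).indicator
        (fun x => ENNReal.ofReal (2 * δ * (V (x - ε) + ε))) x := by
    intro x
    by_cases hx : x ∈ Icc (18 / 124 : ℝ) (106 / 124 + ε)
    · rw [indicator_of_mem hx]
      have : Prod.mk x ⁻¹' {p : ℝ × ℝ | 18 / 124 ≤ p.1 ∧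
          p.1 ≤ 106 / 124 + ε ∧ |p.2| ≤ δ * (V (p.1 - ε) + ε)} =
          Icc (-(δ * (V (x - ε) + ε))) (δ * (V (x - ε) + ε)) := by
        ext y
        simp only [mem_preimage, mem_ofPred_eq, mem_Icc, abs_le]
        exact ⟨fun h => h.2.2, fun h => ⟨hx.1, hx.2, h⟩⟩
      rw [this, Real.volume_Icc]
      congr 1
      ring
    · rw [indicator_of_notMem hx]
      have : Prod.mk x ⁻¹' {p : ℝ × ℝ | 18 / 124 ≤ p.1 ∧
          p.1 ≤ 106 / 124 + ε ∧ |p.2| ≤ δ * (V (p.1 - ε) + ε)} = ∅ := by
        ext y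
        simp only [mem_preimage, mem_ofPred_eq, mem_empty_iff_false, iff_false]
        exact fun h => hx ⟨h.1, h.2.1⟩
      rw [this, measure_empty]
  rw [lintegral_congr h2, lintegral_indicator measurableSet_Icc,
    ← ofReal_integral_eq_lintegral_ofReal]
  · apply ENNReal.ofReal_le_ofReal
    rw [integral_Icc_eq_integral_Ioc, ← intervalIntegral.integral_of_le (by linarith),
      intervalIntegral.integral_const_mul]
    exact mul_le_mul_of_nonneg_left (integral_arm hε) (by linarith)
  · apply Continuous.integrableOn_Icc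
    fun_prop
  · refine Filter.Eventually.of_forall (fun x => ?_)
    have := V_nonneg (x - ε)
    simp only [Pi.zero_apply]
    positivity

/-- Multiplication by a unit complex number preserves the volume. -/
theorem volume_rot (φ : ℝ) (S : Set ℂ) : volume {w : ℂ | exp (φ * I) * w ∈ S} = volume S := by
  have h1 : {w : ℂ | exp (φ * I) * w ∈ S} = (rotation (Circle.exp φ)) ⁻¹' S := by
    ext w
    simp [rotation_apply, Circle.coe_exp]
  rw [h1]
  have h2 := (rotation (Circle.exp φ)).measurePreserving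
  exact h2.measure_preimage_emb (rotation (Circle.exp φ)).toHomeomorph.measurableEmbedding S

theorem region_subset {n : ℕ} (hn : 0 < n) {δ ε : ℝ} (hδn : n * δ = 2 * Real.pi)
    (hδ : 0 < δ) (hδε : δ ^ 2 ≤ ε) (hε1 : ε ≤ 1 / 100) :
    region δ ε ⊆ Metric.closedBall 0 (18 / 124 + ε) ∪
      ⋃ k ∈ Finset.range n, {w : ℂ | exp (((-(k * δ) : ℝ) : ℂ) * I) * w ∈ arm' δ ε} := by
  have hε0 : 0 < ε := lt_of_lt_of_le (by positivity) hδε
  intro w hw
  rcases hw with h | ⟨k, hk⟩
  · left
    simpa using h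
  · by_cases hre : 18 / 124 ≤ (exp (-(k * δ * I)) * w).re
    · right
      have hn' : (n : ℤ) ≠ 0 := by exact_mod_cast hn.ne'
      have h0 : 0 ≤ k % n := Int.emod_nonneg _ hn'
      have h1 : k % n < n := Int.emod_lt_of_pos _ (by exact_mod_cast hn)
      obtain ⟨r, hr⟩ := Int.eq_ofNat_of_zero_le h0
      have hrn : r < n := by rw [hr] at h1; exact_mod_cast h1
      simp only [mem_iUnion, mem_ofPred_eq, Finset.mem_range]
      refine ⟨r, hrn, ?_⟩
      have hkr : k = n * (k / n) + r := by rw [← hr]; exact (Int.mul_ediv_add_emod k n).symm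
      have e1 : exp (-(k * δ * I)) = exp (((-(r * δ) : ℝ) : ℂ) * I) := by
        have h3 : -((k : ℂ) * δ * I) = ((-(r * δ) : ℝ) : ℂ) * I +
            ((-(k / n) : ℤ) : ℂ) * (2 * Real.pi * I) := by
          have h4 : (k : ℝ) * δ = (k / n : ℤ) * (2 * Real.pi) + r * δ := by
            have : (k : ℝ) = n * ((k / n : ℤ) : ℝ) + r := by exact_mod_cast hkr
            rw [← hδn]
            calc (k : ℝ) * δ = (n * ((k / n : ℤ) : ℝ) + r) * δ := by rw [← this]
              _ = _ := by ring
          have h5 : (k : ℂ) * δ = ((k / n : ℤ) : ℂ) * (2 * Real.pi) + r * δ := by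
            have := congrArg (fun x : ℝ => (x : ℂ)) h4
            push_cast at this ⊢
            exact this
          rw [h5]
          push_cast
          ring
        rw [h3, exp_add, exp_int_mul_two_pi_mul_I, mul_one]
      rw [e1] at hk hre
      exact ⟨hre, hk.2⟩
    · left
      push Not at hre
      have hnorm : ‖w‖ = ‖exp (-(k * δ * I)) * w‖ := by
        rw [norm_mul]
        have : ‖exp (-((k : ℂ) * δ * I))‖ = 1 := by
          have := Complex.norm_exp_ofReal_mul_I (-((k : ℝ) * δ))
          push_cast at this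
          rw [← this]
          congr 2
          ring
        rw [this, one_mul]
      rw [mem_closedBall_zero_iff, hnorm]
      obtain ⟨h1, h2, h3⟩ := hk
      set z := exp (-(k * δ * I)) * w
      have hz : z = (z.re : ℂ) + (z.im : ℂ) * I := (re_add_im z).symm
      rw [hz, Complex.norm_add_mul_I, Real.sqrt_le_left (by linarith)]
      have h4 : z.re ^ 2 ≤ (18 / 124) ^ 2 := pow_le_pow_left₀ h1 hre.le 2
      have h5 : |z.im| ≤ δ * (1 / 4 + 1 / 100) := by
        refine h3.trans (mul_le_mul_of_nonneg_left ?_ hδ.le)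
        have := V_le (z.re - ε)
        linarith
      have h6 : z.im ^ 2 ≤ ε * (1 / 4) := by
        rw [← sq_abs z.im]
        calc |z.im| ^ 2 ≤ (δ * (1 / 4 + 1 / 100)) ^ 2 := pow_le_pow_left₀ (abs_nonneg _) h5 2
          _ = δ ^ 2 * (1 / 4 + 1 / 100) ^ 2 := by ring
          _ ≤ ε * (1 / 4) := by
            apply mul_le_mul hδε (by norm_num) (by positivity) hε0.le
      nlinarith

theorem volume_region {n : ℕ} (hn : 0 < n) {δ ε : ℝ} (hδn : n * δ = 2 * Real.pi)
    (hδ : 0 < δ) (hδε : δ ^ 2 ≤ ε) (hε1 : ε ≤ 1 / 100) :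
    volume (region δ ε) ≤ ENNReal.ofReal (Real.pi * ((18 / 124 + ε) ^ 2 +
      4 * (2253081 / 129896448 + ε / 4 + ε * (88 / 124 + ε)))) := by
  have hε0 : 0 < ε := lt_of_lt_of_le (by positivity) hδε
  refine (measure_mono (region_subset hn hδn hδ hδε hε1)).trans ?_
  refine (measure_union_le _ _).trans ?_
  have h1 : volume (Metric.closedBall (0 : ℂ) (18 / 124 + ε)) =
      ENNReal.ofReal (Real.pi * (18 / 124 + ε) ^ 2) := by
    rw [Complex.volume_closedBall, ENNReal.ofReal_mul Real.pi_pos.le, mul_comm,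
      ENNReal.ofReal_pow (by linarith)]
    congr 1
    rw [← NNReal.coe_real_pi, ENNReal.ofReal_coe_nnreal]
  have h2 : volume (⋃ k ∈ Finset.range n,
      {w : ℂ | exp (((-(k * δ) : ℝ) : ℂ) * I) * w ∈ arm' δ ε}) ≤
      ENNReal.ofReal (Real.pi * (4 * (2253081 / 129896448 + ε / 4 + ε * (88 / 124 + ε)))) := by
    refine (measure_biUnion_finset_le _ _).trans ?_
    have h3 : ∀ k ∈ Finset.range n,
        volume {w : ℂ | exp (((-(k * δ) : ℝ) : ℂ) * I) * w ∈ arm' δ ε} ≤
        ENNReal.ofReal (2 * δ * (2253081 / 129896448 + ε / 4 + ε * (88 / 124 + ε))) := by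
      intro k _
      rw [volume_rot]
      exact volume_arm' hδ hε0
    refine (Finset.sum_le_sum h3).trans ?_
    rw [Finset.sum_const, Finset.card_range, nsmul_eq_mul,
      ← ENNReal.ofReal_natCast n, ← ENNReal.ofReal_mul (by positivity)]
    apply ENNReal.ofReal_le_ofReal
    have : (n : ℝ) * (2 * δ * (2253081 / 129896448 + ε / 4 + ε * (88 / 124 + ε))) =
        (n * δ) * 2 * (2253081 / 129896448 + ε / 4 + ε * (88 / 124 + ε)) := by ring
    rw [this, hδn]
    apply le_of_eq
    ring
  rw [h1]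
  refine (add_le_add le_rfl h2).trans ?_
  rw [← ENNReal.ofReal_add (by positivity) (by positivity)]
  apply ENNReal.ofReal_le_ofReal
  apply le_of_eq
  ring

end Pool.Agent.Helper32.Kak
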